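import Mathlib
import Pool.Agent.Q127.KI.Mn2
import Pool.Agent.Q44.KI.Ent
import Pool.Agent.Q121.KI2_DIC
import Pool.Agent.Q25.KI2_FIX
import Pool.Agent.Q164.KI2_CNV
import Pool.Agent.Q54.KI.SHD
import Pool.Agent.Q222.KI2_FRL
import Pool.Agent.Q182.KI2_FR2
import Pool.Agent.Q90.KI2_COV

/-!
# Diffeomorphisms of positive entropy all of whose orbit measures are finite

On every compact `C^∞` manifold of dimension `d ≥ 3` there is a `C^∞` diffeomorphism `f` with `h_top(f) > 0` such that
the orbit measure `η_x` has total mass at most `1` for every point `x`.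

Proof. A horseshoe which is the shift on `{0,1}^ℤ` lies in a cube `[-1,1]^d`; let `K` be the part of it which belongs to a
uniquely ergodic subshift of positive entropy. Compose with a push `v ↦ v + φ(v) e_3`, where `φ ≥ 0` is `C^∞` and
vanishes exactly on `K` and outside the open cube. The third coordinate increases strictly along all orbits in the open
cube outside `K`, so every orbit converges to a fixed point or accumulates only on `K`. In the second case it shadows
pieces of orbits of `K`, on which the frequencies of the cylinders are uniform, so the frequencies of its visits to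
small disjoint neighbourhoods of the cylinders of `K` exist; their sum is at most `1`.
-/

set_option autoImplicit false

namespace Pool.Agent.Results.MP_7f417e_an.FiniteOrbitMeasuresEntropy

open MeasureTheory Filter Topology Dynamics
open scoped Manifold ContDiff

open Classical in
/-- `τ_x(A)`, the upper frequency of the visits of the orbit of `x` to `A`:
`limsup (1/n) #{0 ≤ j < n : f^j(x) ∈ A}`. -/
noncomputable def upperFreq {M : Type} (f : M → M) (x : M) (A : Set M) : ENNReal :=
  limsup (fun n : ℕ => (((Finset.range n).filter (fun j => f^[j] x ∈ A)).card : ENNReal) / n) atTop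

/-- `ν_{x,r}(Y)`: the infimum of `∑ τ_x(I_i)` over the countable covers `I_i` of `Y` by open sets of diameter at most
`r`. -/
noncomputable def coverMass {M : Type} [MetricSpace M] (f : M → M) (x : M) (r : ℝ) (Y : Set M) : ENNReal :=
  ⨅ (I : ℕ → Set M) (_ : ∀ i, IsOpen (I i) ∧ ∀ a ∈ I i, ∀ b ∈ I i, dist a b ≤ r) (_ : Y ⊆ ⋃ i, I i),
    ∑' i, upperFreq f x (I i)

/-- `ν_x(Y) = sup_{r > 0} ν_{x,r}(Y)`; its restriction to the Borel sets is the orbit measure `η_x`. -/
noncomputable def orbitMass {M : Type} [MetricSpace M] (f : M → M) (x : M) (Y : Set M) : ENNReal :=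
  ⨆ (r : ℝ) (_ : 0 < r), coverMass f x r Y

/-- `f` is a `C^∞` diffeomorphism of the manifold `M` of dimension `d`. -/
def IsDiffeo (d : ℕ) {M : Type} [MetricSpace M] [ChartedSpace (EuclideanSpace ℝ (Fin d)) M] (f : M → M) : Prop :=
  ∃ g : Diffeomorph (𝓡 d) (𝓡 d) M M ∞, ⇑g = f

/-- The manifold `M` of dimension `d` has a `C^∞` diffeomorphism `f`, the identity outside `U`, of positive topological
entropy, all of whose orbit measures have total mass at most `1`. -/
def FailsOn (d : ℕ) (M : Type) [MetricSpace M] [ChartedSpace (EuclideanSpace ℝ (Fin d)) M] (U : Set M) : Prop :=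
  ∃ f : M → M, IsDiffeo d f ∧ (∀ x, x ∉ U → f x = x) ∧ 0 < coverEntropy f Set.univ ∧
    ∀ x, orbitMass f x Set.univ ≤ 1

/-- The implication of Q1 for the `C^∞` diffeomorphisms of all compact manifolds. -/
def FiniteImpliesZero : Prop :=
  ∀ (d : ℕ) (M : Type) [MetricSpace M] [CompactSpace M] [ChartedSpace (EuclideanSpace ℝ (Fin d)) M]
    [IsManifold (𝓡 d) ∞ M] (f : M → M), IsDiffeo d f → (∀ x, orbitMass f x Set.univ < ⊤) →
    coverEntropy f Set.univ = 0

theorem result :
    (∀ d : ℕ, 3 ≤ d → ∀ (M : Type) [MetricSpace M] [CompactSpace M] [ChartedSpace (EuclideanSpace ℝ (Fin d)) M]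
      [IsManifold (𝓡 d) ∞ M] (U : Set M), IsOpen U → U.Nonempty → FailsOn d M U) ∧
    ¬ FiniteImpliesZero := by
  have hent : Pool.Agent.Q127.KI.S_ent := Pool.Agent.Q44.KI.ent Pool.Agent.Q127.KI.grw Q123.KI_INJ.inj
    (Pool.Agent.Q39.KI_APP.app Pool.Agent.Q121.KI_SUB.sub) Q123.KI_CLS.cls
    (Pool.Agent.Q127.KI.nem (Q182.KI_DEC.dec Pool.Agent.Q121.KI_SUB.sub) Q123.KI_CLS.cls)
    Pool.Agent.Q71.KI_INV.inv
  have hne : Pool.Agent.Q127.KI.Sub.Nonempty :=
    Pool.Agent.Q127.KI.nem (Q182.KI_DEC.dec Pool.Agent.Q121.KI_SUB.sub) Q123.KI_CLS.cls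
  have hfrl : Pool.Agent.Q127.KI.S_frl :=
    Pool.Agent.Q127.KI.frl Pool.Agent.Q164.KI2.cnv Pool.Agent.Q182.KI2_FR2.fr2 Pool.Agent.Q54.KI.shd
  have main : ∀ d : ℕ, 3 ≤ d → ∀ (M : Type) [MetricSpace M] [CompactSpace M]
      [ChartedSpace (EuclideanSpace ℝ (Fin d)) M]
      [IsManifold (𝓡 d) ∞ M] (U : Set M), IsOpen U → U.Nonempty → FailsOn d M U := by
    intro d hd M _ _ _ _ U hU hUn
    obtain ⟨f, h1, h2, h3⟩ := Pool.Agent.Q127.KI.main2 (d := d) Pool.Agent.Q121.KI2_DIC.dic
      Pool.Agent.Q25.KI2_FIX.fix (Pool.Agent.Q90.KI2COV.cov hfrl) hent hne hd hU hUn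
    exact ⟨f, ⟨f, rfl⟩, h1, h2, h3⟩
  refine ⟨main, fun hK => ?_⟩
  have : Nonempty (Metric.sphere (0 : EuclideanSpace ℝ (Fin 4)) 1) :=
    (NormedSpace.sphere_nonempty.2 zero_le_one).to_subtype
  obtain ⟨f, hf, -, h0, h⟩ := main 3 le_rfl (Metric.sphere (0 : EuclideanSpace ℝ (Fin 4)) 1) Set.univ isOpen_univ
    Set.univ_nonempty
  have := hK 3 _ f hf (fun x => lt_of_le_of_lt (h x) ENNReal.one_lt_top)
  rw [this] at h0
  exact lt_irrefl _ h0

end Pool.Agent.Results.MP_7f417e_an.FiniteOrbitMeasuresEntropy
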